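import Mathlib

/-!
# Radical of a group algebra: extension of the field, units
-/

namespace Pool.Agent.KK

open MonoidAlgebra

section Ring
variable {R : Type*} [Ring R]

lemma left_inv_of_mem {a : R} (ha : a ∈ Ideal.jacobson (⊥ : Ideal R)) (b : R) :
    ∃ u : R, u * (1 - b * a) = 1 := by
  rw [Ideal.mem_jacobson_iff] at ha
  obtain ⟨z, hz⟩ := ha (-b)
  refine ⟨z, ?_⟩
  rw [Ideal.mem_bot] at hz
  have h2 : z * (1 - b * a) = (z * -b * a + z - 1) + 1 := by noncomm_ring
  rw [h2, hz, zero_add]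

lemma mem_of_left_inv {a : R} (h : ∀ b : R, ∃ u : R, u * (1 - b * a) = 1) :
    a ∈ Ideal.jacobson (⊥ : Ideal R) := by
  rw [Ideal.mem_jacobson_iff]
  intro y
  obtain ⟨u, hu⟩ := h (-y)
  refine ⟨u, ?_⟩
  rw [Ideal.mem_bot]
  have h2 : u * y * a + u - 1 = u * (1 - -y * a) - 1 := by noncomm_ring
  rw [h2, hu, sub_self]

lemma isUnit_one_sub {a : R} (ha : a ∈ Ideal.jacobson (⊥ : Ideal R)) : IsUnit (1 - a) := by
  obtain ⟨u, hu⟩ := left_inv_of_mem ha 1
  rw [one_mul] at hu
  have h1 : u = 1 - (-u) * a := by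
    have : u * (1 - a) = u - u * a := by noncomm_ring
    rw [this] at hu
    have h2 : u = 1 + u * a := by rw [← hu]; abel
    calc u = 1 + u * a := h2
      _ = 1 - (-u) * a := by noncomm_ring
  obtain ⟨v, hv⟩ := left_inv_of_mem ha (-u)
  rw [← h1] at hv
  have h3 : v = 1 - a := by
    calc v = v * (u * (1 - a)) := by rw [hu, mul_one]
      _ = (v * u) * (1 - a) := by rw [mul_assoc]
      _ = 1 - a := by rw [hv, one_mul]
  rw [h3] at hv
  exact ⟨⟨1 - a, u, hv, hu⟩, rfl⟩

end Ring

section Poly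
variable {K R : Type*} [Field K] [Ring R] [Algebra K R]

open Polynomial in
/-- An element of the radical which is algebraic over the field is nilpotent. -/
lemma isNilpotent_of_aeval {s : R} (hs : s ∈ Ideal.jacobson (⊥ : Ideal R)) {q : K[X]}
    (hq : q ≠ 0) (h0 : aeval s q = 0) : IsNilpotent s := by
  obtain ⟨h, hh1, hh2⟩ := Polynomial.exists_eq_pow_rootMultiplicity_mul_and_not_dvd q hq 0
  set k := q.rootMultiplicity 0
  rw [map_zero, sub_zero] at hh1 hh2
  have hc : h.coeff 0 ≠ 0 := by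
    intro hc
    exact hh2 (X_dvd_iff.2 hc)
  obtain ⟨r, hr⟩ : ∃ r : K[X], h = r * X + C (h.coeff 0) := ⟨divX h, (divX_mul_X_add h).symm⟩
  set c := h.coeff 0 with hcdef
  obtain ⟨u, hu⟩ := left_inv_of_mem hs (-(c⁻¹ • aeval s r))
  have h1 : aeval s h = c • (1 - -(c⁻¹ • aeval s r) * s) := by
    rw [hr]
    simp only [map_add, map_mul, aeval_X, aeval_C]
    rw [smul_sub, neg_mul, smul_neg, smul_mul_assoc, smul_smul, mul_inv_cancel₀ hc, one_smul,
      sub_neg_eq_add, Algebra.algebraMap_eq_smul_one, add_comm]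
  refine ⟨k, ?_⟩
  have h2 : aeval s h * s ^ k = 0 := by
    have : aeval s q = aeval s h * s ^ k := by
      conv_lhs => rw [hh1]
      rw [mul_comm, map_mul, map_pow, aeval_X]
    rw [← this, h0]
  calc s ^ k = (u * (1 - -(c⁻¹ • aeval s r) * s)) * s ^ k := by rw [hu, one_mul]
    _ = (c⁻¹ • u) * (aeval s h * s ^ k) := by
        rw [h1, ← mul_assoc, smul_mul_smul_comm, inv_mul_cancel₀ hc, one_smul]
    _ = 0 := by rw [h2, mul_zero]

end Poly

section Ext
variable {F E : Type*} [Field F] [Field E] [Algebra F E] {G : Type*} [Group G]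

/-- The map of group algebras induced by a field extension. -/
noncomputable def ext (F E G : Type*) [Field F] [Field E] [Algebra F E] [Group G] :
    MonoidAlgebra F G →+* MonoidAlgebra E G := MonoidAlgebra.mapRingHom G (algebraMap F E)

lemma ext_coeff (a : MonoidAlgebra F G) (g : G) :
    (ext F E G a).coeff g = algebraMap F E (a.coeff g) := by
  simp [ext, MonoidAlgebra.mapRingHom]

lemma ext_injective : Function.Injective (ext F E G) := by
  intro a b h
  ext g
  have := congrArg (fun x => MonoidAlgebra.coeff x g) h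
  simpa [ext_coeff] using this

end Ext

end Pool.Agent.KK
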