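import Pool.Agent.KK.Star

/-!
# From an algebraic field to the field of algebraic numbers
-/

namespace Pool.Agent.KK

open MonoidAlgebra

section
variable {F : Type*} [Field F] [CharZero F] [Algebra.IsAlgebraic ℚ F] {G : Type*} [Group G]

/-- From an algebraic field of characteristic zero to the field of all algebraic numbers. -/
theorem jacobson_E (hJ : Ideal.jacobson (⊥ : Ideal (MonoidAlgebra F G)) ≠ ⊥) :
    Ideal.jacobson (⊥ : Ideal (MonoidAlgebra E0 G)) ≠ ⊥ := by
  have : IsAlgClosed E0 := (algebraicClosure.isAlgClosure (F := ℚ) (E := ℂ)).isAlgClosed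
  let f : F →ₐ[ℚ] E0 := IsAlgClosed.lift
  let _ : Algebra F E0 := f.toRingHom.toAlgebra
  have : IsScalarTower ℚ F E0 := IsScalarTower.of_algebraMap_eq fun r => by
    exact (f.commutes r).symm
  have h0 : Algebra.IsAlgebraic ℚ E0 := algebraicClosure.isAlgebraic (F := ℚ) (E := ℂ)
  have : Algebra.IsAlgebraic F E0 := Algebra.IsAlgebraic.tower_top (K := ℚ) F
  obtain ⟨a, ha, ha0⟩ := Submodule.exists_mem_ne_zero_of_ne_bot hJ
  intro h
  have h1 := ext_mem (E := E0) ha
  rw [h, Submodule.mem_bot] at h1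
  apply ha0
  apply ext_injective (F := F) (E := E0)
  rw [h1, map_zero]

end

end Pool.Agent.KK
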