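import Pool.Agent.KK.Alg

/-!
# The radical of a group algebra under an algebraic extension of the field
-/

namespace Pool.Agent.KK

open MonoidAlgebra

variable {F E : Type*} [Field F] [Field E] [Algebra F E] {G : Type*} [Group G]

/-- `E[G]` as a module over `F[G]`. -/
noncomputable def modExt (F E G : Type*) [Field F] [Field E] [Algebra F E] [Group G] :
    Module (MonoidAlgebra F G) (MonoidAlgebra E G) := Module.compHom _ (ext F E G)

lemma ext_single (g : G) (c : F) : ext F E G (single g c) = single g (algebraMap F E c) := by
  simp [ext]

lemma single_one_comm (c : E) (x : MonoidAlgebra E G) :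
    single 1 c * x = x * single 1 c := by
  have h : (single 1 c : MonoidAlgebra E G) = algebraMap E (MonoidAlgebra E G) c := rfl
  rw [h]
  exact Algebra.commutes c x

theorem ext_mem [Algebra.IsAlgebraic F E] {a : MonoidAlgebra F G}
    (ha : a ∈ Ideal.jacobson (⊥ : Ideal (MonoidAlgebra F G))) :
    ext F E G a ∈ Ideal.jacobson (⊥ : Ideal (MonoidAlgebra E G)) := by
  classical
  letI := modExt F E G
  have hsmul : ∀ (r : MonoidAlgebra F G) (x : MonoidAlgebra E G), r • x = ext F E G r * x :=
    fun r x => rfl
  apply mem_of_left_inv
  intro b
  -- the field generated by the coefficients of `b`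
  set E0 : IntermediateField F E :=
    IntermediateField.adjoin F (b.coeff.support.image b.coeff : Set E) with hE0
  have hfin : FiniteDimensional F E0 := by
    rw [hE0]
    have : Finite (b.coeff.support.image b.coeff : Set E) := Finset.finite_toSet _ 
    apply IntermediateField.finiteDimensional_adjoin
    intro x _
    exact Algebra.IsIntegral.isIntegral x
  have hfg : (Subalgebra.toSubmodule E0.toSubalgebra).FG := by
    rw [← Module.Finite.iff_fg]
    exact hfin
  obtain ⟨T, hT⟩ := hfg
  set T' : Set (MonoidAlgebra E G) := (fun t : E => single 1 t) '' (T : Set E) with hT'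
  set N : Submodule (MonoidAlgebra F G) (MonoidAlgebra E G) := Submodule.span _ T' with hN
  have hNfg : N.FG := Submodule.fg_span ((Finset.finite_toSet T).image _)
  -- `N` contains everything with coefficients in `E0`
  have h1 : ∀ c ∈ E0, ∀ g : G, single g c ∈ N := by
    intro c hc g
    have hc' : c ∈ Submodule.span F (T : Set E) := by
      rw [hT]; exact hc
    induction hc' using Submodule.span_induction with
    | mem x hx =>
      have : (single g x : MonoidAlgebra E G) = (single g (1 : F) : MonoidAlgebra F G) • single 1 x := by
        rw [hsmul, ext_single, single_mul_single]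
        simp
      rw [this]
      exact N.smul_mem _ (Submodule.subset_span ⟨x, hx, rfl⟩)
    | zero => simp
    | add x y hx hy ihx ihy =>
      rw [single_add]
      refine N.add_mem (ihx ?_) (ihy ?_)
      · rw [hT] at hx; exact hx
      · rw [hT] at hy; exact hy
    | smul r x hx ih =>
      have : (single g (r • x) : MonoidAlgebra E G) =
          (single (1 : G) r : MonoidAlgebra F G) • single g x := by
        rw [hsmul, ext_single, single_mul_single, one_mul, Algebra.smul_def]
      rw [this]
      refine N.smul_mem _ (ih ?_)
      rw [hT] at hx; exact hx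
  have hcoef : ∀ x : MonoidAlgebra E G, (∀ g, x.coeff g ∈ E0) → x ∈ N := by
    intro x hx
    rw [← MonoidAlgebra.sum_coeff_single x, Finsupp.sum]
    exact N.sum_mem fun g _ => h1 _ (hx g) g
  have hN2 : ∀ x ∈ N, ∀ g, x.coeff g ∈ E0 := by
    intro x hx
    induction hx using Submodule.span_induction with
    | mem x hx =>
      obtain ⟨t, ht, rfl⟩ := hx
      intro g
      have ht' : t ∈ E0 := by
        have : t ∈ Submodule.span F (T : Set E) := Submodule.subset_span ht
        rw [hT] at this
        exact this
      simp only [coeff_single, Finsupp.single_apply]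
      split_ifs
      · exact ht'
      · exact zero_mem _
    | zero => intro g; simp
    | add x y _ _ ihx ihy => intro g; simpa using add_mem (ihx g) (ihy g)
    | smul r x _ ih =>
      intro g
      rw [hsmul, coeff_mul]
      simp only [Finsupp.sum]
      refine sum_mem fun m _ => sum_mem fun m' _ => ?_
      split_ifs
      · refine mul_mem ?_ (ih m')
        rw [ext_coeff]
        exact E0.algebraMap_mem _
      · exact zero_mem _
  have hb : ∀ g, b.coeff g ∈ E0 := by
    intro g
    by_cases hg : g ∈ b.coeff.support
    · exact IntermediateField.subset_adjoin _ _ (by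
        simp only [Finset.coe_image]
        exact ⟨g, hg, rfl⟩)
    · rw [Finsupp.notMem_support_iff] at hg
      rw [hg]; exact zero_mem _
  have hNb : ∀ x ∈ N, x * b ∈ N := by
    intro x hx
    apply hcoef
    intro g
    rw [coeff_mul]
    simp only [Finsupp.sum]
    refine sum_mem fun m _ => sum_mem fun m' _ => ?_
    split_ifs
    · exact mul_mem (hN2 x hx m) (hb m')
    · exact zero_mem _
  -- multiplication by `a` on the right
  have hNa : ∀ x ∈ N, x * ext F E G a ∈ Ring.jacobson (MonoidAlgebra F G) • N := by
    intro x hx
    induction hx using Submodule.span_induction with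
    | mem x hx =>
      obtain ⟨t, ht, rfl⟩ := hx
      have : (fun t : E => (single 1 t : MonoidAlgebra E G)) t * ext F E G a =
          a • (single 1 t : MonoidAlgebra E G) := by
        rw [hsmul]
        exact single_one_comm t _
      rw [this]
      refine Submodule.smul_mem_smul ?_ (Submodule.subset_span ⟨t, ht, rfl⟩)
      rw [← Ideal.jacobson_bot]
      exact ha
    | zero => rw [zero_mul]; exact zero_mem _
    | add x y _ _ ihx ihy => rw [add_mul]; exact add_mem ihx ihy
    | smul r x _ ih =>
      rw [hsmul, mul_assoc, ← hsmul]
      exact Submodule.smul_mem _ _ ih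
  set I : Ideal (MonoidAlgebra E G) := Ideal.span {1 - b * ext F E G a} with hI
  let I' : Submodule (MonoidAlgebra F G) (MonoidAlgebra E G) :=
    { carrier := I
      add_mem' := fun hx hy => I.add_mem hx hy
      zero_mem' := I.zero_mem
      smul_mem' := fun r x hx => I.mul_mem_left _ hx }
  have hle : N.map I'.mkQ ≤ Ring.jacobson (MonoidAlgebra F G) • N.map I'.mkQ := by
    rintro _ ⟨x, hx, rfl⟩
    have h2 : I'.mkQ x = I'.mkQ (x * b * ext F E G a) := by
      rw [Submodule.mkQ_apply, Submodule.mkQ_apply, Submodule.Quotient.eq]
      change x - x * b * ext F E G a ∈ I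
      have : x - x * b * ext F E G a = x * (1 - b * ext F E G a) := by
        rw [mul_sub, mul_one, mul_assoc]
      rw [this]
      exact I.mul_mem_left _ (Ideal.subset_span rfl)
    rw [h2, ← Submodule.map_smul'']
    exact ⟨_, hNa _ (hNb x hx), rfl⟩
  have hbot := Submodule.FG.eq_bot_of_le_jacobson_smul (hNfg.map _) hle
  have h1N : (1 : MonoidAlgebra E G) ∈ N := by
    apply hcoef
    intro g
    rw [one_def, coeff_single, Finsupp.single_apply]
    split_ifs
    · exact one_mem _
    · exact zero_mem _
  have h3 : I'.mkQ (1 : MonoidAlgebra E G) = 0 := by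
    have : I'.mkQ (1 : MonoidAlgebra E G) ∈ N.map I'.mkQ := ⟨_, h1N, rfl⟩
    rw [hbot] at this
    exact this
  rw [Submodule.mkQ_apply, Submodule.Quotient.mk_eq_zero] at h3
  have h4 : (1 : MonoidAlgebra E G) ∈ I := h3
  rw [hI, Ideal.mem_span_singleton'] at h4
  exact h4

end Pool.Agent.KK
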