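import Mathlib

/-!
# Projections in the algebra generated by a self-adjoint element with totally disconnected spectrum
-/

namespace Pool.Agent.KK

open Set

/-- An infinite subset of the line with dense complement has infinitely many disjoint pieces. -/
lemma exists_gaps {σ : Set ℝ} (hinf : σ.Infinite)
    (hcut : ∀ x y : ℝ, x < y → ∃ c, x < c ∧ c < y ∧ c ∉ σ) :
    ∃ l r : ℕ → ℝ, (∀ n, l n ∉ σ ∧ r n ∉ σ ∧ ∃ z ∈ σ, l n < z ∧ z < r n) ∧
      ∀ m n, m ≠ n → ∀ x, l m < x → x < r m → ¬ (l n < x ∧ x < r n) := by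
  have f := hinf.natEmbedding
  obtain ⟨g, hg⟩ := exists_increasing_or_nonincreasing_subseq (· < ·) (fun n => (f n : ℝ))
  rcases hg with hg | hg
  · set z : ℕ → ℝ := fun n => (f (g n) : ℝ) with hz
    have hzσ : ∀ n, z n ∈ σ := fun n => (f (g n)).2
    have hlt : ∀ n, z n < z (n + 1) := fun n => hg _ _ (Nat.lt_succ_self n)
    choose c hc using fun n => hcut _ _ (hlt n)
    have hmono : ∀ m n, m < n → c m < z n := by
      intro m n hmn
      induction n with
      | zero => omega
      | succ n ih =>
        rcases Nat.lt_succ_iff_lt_or_eq.1 hmn with h | rfl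
        · exact (ih h).trans (hlt n)
        · exact (hc m).2.1
    have hcm : ∀ m n, m < n → c m < c n := fun m n h => (hmono m n h).trans (hc n).1
    refine ⟨c, fun n => c (n + 1), fun n => ⟨(hc n).2.2, (hc _).2.2, z (n + 1), hzσ _,
      (hc n).2.1, (hc (n + 1)).1⟩, ?_⟩
    intro m n hmn x h1 h2 h3
    rcases lt_or_gt_of_ne hmn with h | h
    · have : c (m + 1) ≤ c n := by
        rcases Nat.lt_or_ge (m + 1) n with h' | h'
        · exact (hcm _ _ h').le
        · have : m + 1 = n := by omega
          rw [this]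
      linarith [h3.1]
    · have : c (n + 1) ≤ c m := by
        rcases Nat.lt_or_ge (n + 1) m with h' | h'
        · exact (hcm _ _ h').le
        · have : n + 1 = m := by omega
          rw [this]
      linarith [h3.2]
  · set z : ℕ → ℝ := fun n => (f (g n) : ℝ) with hz
    have hzσ : ∀ n, z n ∈ σ := fun n => (f (g n)).2
    have hlt : ∀ n, z (n + 1) < z n := by
      intro n
      have h1 := hg _ _ (Nat.lt_succ_self n)
      have h2 : z (n + 1) ≠ z n := by
        intro h
        have := f.injective (Subtype.ext h)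
        have := g.injective this
        omega
      exact lt_of_le_of_ne (not_lt.1 h1) h2
    choose c hc using fun n => hcut _ _ (hlt n)
    have hmono : ∀ m n, m < n → z n < c m := by
      intro m n hmn
      induction n with
      | zero => omega
      | succ n ih =>
        rcases Nat.lt_succ_iff_lt_or_eq.1 hmn with h | rfl
        · exact (hlt n).trans (ih h)
        · exact (hc m).1
    have hcm : ∀ m n, m < n → c n < c m := fun m n h => (hc n).2.1.trans (hmono m n h)
    refine ⟨fun n => c (n + 1), c, fun n => ⟨(hc _).2.2, (hc n).2.2, z (n + 1), hzσ _,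
      (hc (n + 1)).2.1, (hc n).1⟩, ?_⟩
    intro m n hmn x h1 h2 h3
    rcases lt_or_gt_of_ne hmn with h | h
    · have : c n ≤ c (m + 1) := by
        rcases Nat.lt_or_ge (m + 1) n with h' | h'
        · exact (hcm _ _ h').le
        · have : m + 1 = n := by omega
          rw [this]
      linarith [h3.2]
    · have : c m ≤ c (n + 1) := by
        rcases Nat.lt_or_ge (n + 1) m with h' | h'
        · exact (hcm _ _ h').le
        · have : n + 1 = m := by omega
          rw [this]
      linarith [h3.1]

/-- The indicator function of an open interval. -/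
noncomputable def ind (l r : ℝ) : ℝ → ℝ := (Ioo l r).indicator 1

lemma ind_cont {l r : ℝ} {σ : Set ℝ} (hl : l ∉ σ) (hr : r ∉ σ) : ContinuousOn (ind l r) σ := by
  intro x hx
  have hxl : x ≠ l := fun h => hl (h ▸ hx)
  have hxr : x ≠ r := fun h => hr (h ▸ hx)
  apply ContinuousAt.continuousWithinAt
  by_cases h : x ∈ Ioo l r
  · have : ind l r =ᶠ[nhds x] fun _ => 1 := by
      filter_upwards [isOpen_Ioo.mem_nhds h] with y hy
      simp [ind, hy]
    exact continuousAt_const.congr this.symm
  · have h' : x ∈ (Icc l r)ᶜ := by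
      intro h2
      exact h ⟨lt_of_le_of_ne h2.1 hxl.symm, lt_of_le_of_ne h2.2 hxr⟩
    have : ind l r =ᶠ[nhds x] fun _ => 0 := by
      filter_upwards [isClosed_Icc.isOpen_compl.mem_nhds h'] with y hy
      have : y ∉ Ioo l r := fun h3 => hy ⟨h3.1.le, h3.2.le⟩
      simp [ind, this]
    exact continuousAt_const.congr this.symm

section CStar
variable {A : Type*} [CStarAlgebra A]

/-- Infinitely many orthogonal projections from a self-adjoint element whose spectrum is infinite
and has dense complement. -/
theorem exists_projections [Nontrivial A] {x : A} (hx : IsSelfAdjoint x)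
    (hinf : (spectrum ℝ x).Infinite)
    (hcut : ∀ s t : ℝ, s < t → ∃ c, s < c ∧ c < t ∧ c ∉ spectrum ℝ x) :
    ∃ p : ℕ → A, (∀ n, p n ∈ StarAlgebra.elemental ℝ x ∧ IsStarProjection (p n) ∧ p n ≠ 0) ∧
      ∀ m n, m ≠ n → p m * p n = 0 := by
  obtain ⟨l, r, h1, h2⟩ := exists_gaps hinf hcut
  have hcont : ∀ n, ContinuousOn (ind (l n) (r n)) (spectrum ℝ x) := fun n =>
    ind_cont (h1 n).1 (h1 n).2.1
  refine ⟨fun n => cfc (ind (l n) (r n)) x, fun n => ⟨cfc_mem_elemental _ _, ⟨?_, ?_⟩, ?_⟩, ?_⟩
  · -- idempotent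
    change cfc (ind (l n) (r n)) x * cfc (ind (l n) (r n)) x = cfc (ind (l n) (r n)) x
    rw [← cfc_mul _ _ x (hcont n) (hcont n)]
    congr 1
    funext t
    by_cases ht : t ∈ Ioo (l n) (r n) <;> simp [ind, ht]
  · exact cfc_predicate _ _
  · intro h0
    change cfc (ind (l n) (r n)) x = 0 at h0
    obtain ⟨z, hz, hz1, hz2⟩ := (h1 n).2.2
    have h3 := cfc_map_spectrum (R := ℝ) (ind (l n) (r n)) x hx (hcont n)
    have h4 : (1 : ℝ) ∈ spectrum ℝ (cfc (ind (l n) (r n)) x) := by
      rw [h3]
      refine ⟨z, hz, ?_⟩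
      have : z ∈ Ioo (l n) (r n) := ⟨hz1, hz2⟩
      simp [ind, this]
    rw [h0, spectrum.zero_eq] at h4
    simp at h4
  · intro m n hmn
    rw [← cfc_mul _ _ x (hcont m) (hcont n)]
    have : (fun t => ind (l m) (r m) t * ind (l n) (r n) t) = fun _ => 0 := by
      funext t
      by_cases ht : t ∈ Ioo (l m) (r m)
      · have ht' : t ∉ Ioo (l n) (r n) := fun h => h2 m n hmn t ht.1 ht.2 h
        simp [ind, ht']
      · simp [ind, ht]
    rw [this, cfc_const_zero]

end CStar

end Pool.Agent.KK
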