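import Pool.Agent.KK.Down
import Pool.Agent.Hhelper31.Ops

/-!
# The reduced C*-algebra
-/

namespace Pool.Agent.KK

open MonoidAlgebra Pool.Agent.Hhelper31

section
variable {G : Type} [Group G]

/-- Bounded operators on `ℓ²(G)`. -/
def Op (G : Type) : Type := H2 G →L[ℂ] H2 G

noncomputable instance : CStarAlgebra (Op G) := inferInstanceAs (CStarAlgebra (H2 G →L[ℂ] H2 G))

/-- An element of `Op G` as a continuous linear map. -/
def Op.toCLM (T : Op G) : H2 G →L[ℂ] H2 G := T

/-- Left translation by `g` on square summable functions: `(f ↦ fun h => f (g⁻¹ * h))`. -/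
noncomputable def leftOp (g : G) : Op G := perm (Equiv.mulLeft g⁻¹)

lemma leftOp_apply (g : G) (f : H2 G) (h : G) :
    ((leftOp g).toCLM f : G → ℂ) h = f (g⁻¹ * h) := rfl

lemma leftOp_mul (g h : G) : leftOp (g * h) = leftOp g * leftOp h := by
  change perm (Equiv.mulLeft (g * h)⁻¹) = perm (Equiv.mulLeft g⁻¹) * perm (Equiv.mulLeft h⁻¹)
  rw [perm_mul]
  congr 1
  ext x
  simp

lemma leftOp_one : leftOp (1 : G) = 1 := by
  change perm (Equiv.mulLeft (1 : G)⁻¹) = 1
  ext1 f
  ext x
  simp [perm_apply]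

lemma star_leftOp (g : G) : star (leftOp g) = leftOp g⁻¹ := by
  change star (perm (Equiv.mulLeft g⁻¹)) = perm (Equiv.mulLeft g⁻¹⁻¹)
  rw [star_perm]
  congr 1
  ext x
  simp

/-- The left regular representation. -/
noncomputable def regular (G : Type) [Group G] : G →* unitary (Op G) where
  toFun g := ⟨leftOp g, by
    rw [Unitary.mem_iff, star_leftOp, ← leftOp_mul, ← leftOp_mul]
    simp [leftOp_one]⟩
  map_one' := by
    ext1
    exact leftOp_one
  map_mul' g h := by
    ext1
    exact leftOp_mul g h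

lemma rep_regular_dl (a : MonoidAlgebra ℂ G) (g : G) :
    ((rep (regular G) a).toCLM (dl 1) : G → ℂ) g = a.coeff g := by
  classical
  have h1 : rep (regular G) a = a.coeff.sum fun g c => c • leftOp g := by
    simp [rep, MonoidAlgebra.lift_apply, regular]
  have h2 : ∀ h : G, perm (Equiv.mulLeft h⁻¹) (dl 1) = (dl h : H2 G) := by
    intro h
    ext x
    rw [perm_apply, dl_apply, dl_apply]
    congr 1
    rw [eq_iff_iff]
    simp [inv_mul_eq_one, eq_comm]
  have h4 : (rep (regular G) a).toCLM =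
      ∑ x ∈ a.coeff.support, a.coeff x • perm (Equiv.mulLeft x⁻¹) := h1
  rw [h4, _root_.sum_apply]
  simp only [_root_.smul_apply, h2]
  have h3 : ((∑ x ∈ a.coeff.support, a.coeff x • (dl x : H2 G) : H2 G) : G → ℂ) g =
      ∑ x ∈ a.coeff.support, a.coeff x * (dl x : G → ℂ) g := by
    rw [lp.coeFn_sum]
    simp
  rw [h3]
  simp only [dl_apply, mul_ite, mul_one, mul_zero]
  rw [Finset.sum_ite_eq]
  split_ifs with h
  · rfl
  · exact (Finsupp.notMem_support_iff.1 h).symm

lemma rep_regular_injective : Function.Injective (rep (regular G)) := by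
  rw [injective_iff_map_eq_zero]
  intro a ha
  ext g
  rw [← rep_regular_dl, ha]
  rfl

/-- The canonical trace of an operator on `ℓ²(G)`: the real part of its entry at `(1, 1)`. -/
noncomputable def trace (T : Op G) : ℝ := ((T.toCLM (dl 1) : G → ℂ) 1).re

/-- Every nonzero projection in the reduced C*-algebra of `G` has trace at least `ε`. -/
def TraceGap (G : Type) [Group G] (ε : ℝ) : Prop :=
  ∀ p ∈ completion (regular G), IsStarProjection p → p ≠ 0 → ε ≤ trace p

lemma trace_eq (T : Op G) :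
    trace T = RCLike.re (inner ℂ (dl (1 : G)) (T.toCLM (dl 1))) := by
  classical
  unfold trace dl
  rw [lp.inner_single_left]
  simp

lemma norm_dl : ‖(dl (1 : G) : H2 G)‖ = 1 := by
  classical
  unfold dl
  rw [lp.norm_single (by norm_num)]
  simp

lemma trace_le_one {p : Op G} (hp : IsStarProjection p) : trace p ≤ 1 := by
  rw [trace_eq]
  have h0 : ‖p‖ ≤ 1 := hp.norm_le
  have h1 : ‖p.toCLM‖ ≤ 1 := h0
  calc RCLike.re (inner ℂ (dl (1 : G)) (p.toCLM (dl 1))) ≤
        ‖inner ℂ (dl (1 : G)) (p.toCLM (dl 1))‖ := RCLike.re_le_norm _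
    _ ≤ ‖(dl (1 : G) : H2 G)‖ * ‖p.toCLM (dl 1)‖ := norm_inner_le_norm _ _
    _ ≤ 1 * (1 * 1) := by
        rw [norm_dl]
        gcongr
        calc ‖p.toCLM (dl 1)‖ ≤ ‖p.toCLM‖ * ‖(dl (1 : G) : H2 G)‖ := p.toCLM.le_opNorm _
          _ ≤ 1 * 1 := by rw [norm_dl]; gcongr
    _ = 1 := by norm_num

lemma trace_sum {ι : Type*} (s : Finset ι) (p : ι → Op G) :
    trace (∑ i ∈ s, p i) = ∑ i ∈ s, trace (p i) := by
  have h : (∑ i ∈ s, p i : Op G).toCLM = ∑ i ∈ s, (p i).toCLM := rfl
  simp only [trace_eq, h, _root_.sum_apply, inner_sum, map_sum]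

/-- An infinite orthogonal sequence of projections contains projections of small trace. -/
lemma exists_small {p : ℕ → Op G} (hp : ∀ n, IsStarProjection (p n))
    (horth : ∀ m n, m ≠ n → p m * p n = 0) {ε : ℝ} (hε : 0 < ε) : ∃ n, trace (p n) < ε := by
  by_contra hcon
  push Not at hcon
  obtain ⟨N, hN⟩ := exists_nat_gt (1 / ε)
  have h1 : IsStarProjection (∑ i ∈ Finset.range N, p i) := by
    constructor
    · change (∑ i ∈ Finset.range N, p i) * (∑ i ∈ Finset.range N, p i) = _
      rw [Finset.sum_mul]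
      refine Finset.sum_congr rfl fun i hi => ?_
      rw [Finset.mul_sum, Finset.sum_eq_single i]
      · exact (hp i).1
      · intro j _ hj
        exact horth _ _ hj.symm
      · intro h; exact absurd hi h
    · exact isSelfAdjoint_sum _ fun i _ => (hp i).2
  have h2 := trace_le_one h1
  rw [trace_sum] at h2
  have h3 : (N : ℝ) * ε ≤ ∑ i ∈ Finset.range N, trace (p i) := by
    calc (N : ℝ) * ε = ∑ i ∈ Finset.range N, ε := by simp
      _ ≤ _ := Finset.sum_le_sum fun i _ => hcon i
  have h4 : 1 < N * ε := by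
    rwa [div_lt_iff₀ hε] at hN
  linarith

end

/-- The version with the reduced C*-algebra and its trace. -/
theorem semisimple_of_traceGap {G : Type} [Group G] {ε : ℝ} (hε : 0 < ε) (h : TraceGap G ε)
    {F : Type*} [Field F] [CharZero F] [Algebra.IsAlgebraic ℚ F] :
    Ideal.jacobson (⊥ : Ideal (MonoidAlgebra F G)) = ⊥ := by
  by_contra hJ
  have : Nontrivial (Op G) := (rep_regular_injective (G := G)).nontrivial
  obtain ⟨p, hp, horth⟩ := exists_projections_E (regular G) rep_regular_injective (jacobson_E hJ)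
  obtain ⟨n, hn⟩ := exists_small (fun n => (hp n).2.1) horth hε
  exact absurd (h (p n) (hp n).1 (hp n).2.1 (hp n).2.2) (not_le.2 hn)

end Pool.Agent.KK
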