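import Pool.Agent.KK.Ext
import Pool.Agent.KK.Gaps

/-!
# Radical elements in C*-completions of a group algebra
-/

namespace Pool.Agent.KK

open MonoidAlgebra Polynomial

/-- The field of algebraic numbers in `ℂ`. -/
noncomputable abbrev E0 : IntermediateField ℚ ℂ := algebraicClosure ℚ ℂ

lemma star_mem_E0 {z : ℂ} (hz : z ∈ E0) : star z ∈ E0 := by
  rw [mem_algebraicClosure_iff] at hz ⊢
  exact IsAlgebraic.algHom (Complex.conjAe.toAlgHom.restrictScalars ℚ) hz

/-- complex conjugation of algebraic numbers -/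
noncomputable def conjE (z : E0) : E0 := ⟨star (z : ℂ), star_mem_E0 z.2⟩

section
variable {G : Type*} [Group G]

/-- The adjoint of an element of the group algebra. -/
noncomputable def adj (a : MonoidAlgebra E0 G) : MonoidAlgebra E0 G :=
  a.coeff.sum fun g c => single g⁻¹ (conjE c)

variable {A : Type*} [CStarAlgebra A]

/-- The representation of `ℂ[G]` on `A` given by a unitary representation of `G`. -/
noncomputable def rep (u : G →* unitary A) : MonoidAlgebra ℂ G →ₐ[ℂ] A :=
  MonoidAlgebra.lift ℂ A G ((unitary A).subtype.comp u)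

/-- The norm closure of the image of `ℂ[G]`. -/
def completion (u : G →* unitary A) : Set A := closure (Set.range (rep u))

/-- `S` contains an infinite sequence of nonzero pairwise orthogonal projections. -/
def HasOrthogonalSequence (S : Set A) : Prop :=
  ∃ p : ℕ → A, (∀ n, p n ∈ S ∧ IsStarProjection (p n) ∧ p n ≠ 0) ∧ ∀ m n, m ≠ n → p m * p n = 0

/-- Restriction to algebraic coefficients. -/
noncomputable def repE (u : G →* unitary A) : MonoidAlgebra E0 G →+* A :=
  (rep u : MonoidAlgebra ℂ G →+* A).comp (ext E0 ℂ G)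

lemma repE_single (u : G →* unitary A) (g : G) (c : E0) :
    repE u (single g c) = (c : ℂ) • (u g : A) := by
  simp only [repE, RingHom.comp_apply, ext_single]
  simp [rep]

lemma repE_adj (u : G →* unitary A) (a : MonoidAlgebra E0 G) :
    repE u (adj a) = star (repE u a) := by
  have h1 : repE u a = a.coeff.sum fun g c => (c : ℂ) • (u g : A) := by
    conv_lhs => rw [← MonoidAlgebra.sum_coeff_single a]
    rw [Finsupp.sum, map_sum]
    simp only [repE_single]
    rfl
  rw [h1, adj, Finsupp.sum, Finsupp.sum, map_sum, star_sum]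
  refine Finset.sum_congr rfl fun g _ => ?_
  rw [repE_single, star_smul, map_inv]
  rfl

/-- A relation with complex coefficients gives one with algebraic coefficients. -/
lemma exists_aeval_zero {s : MonoidAlgebra E0 G} {m : ℂ[X]} (hm : m.Monic)
    (h : aeval (ext E0 ℂ G s) m = 0) : ∃ q : E0[X], q ≠ 0 ∧ aeval s q = 0 := by
  classical
  obtain ⟨ℓ, hℓ⟩ : ∃ ℓ : ℂ →ₗ[E0] E0, ∀ c : E0, ℓ (c : ℂ) = c := by
    have hinj : LinearMap.ker (Algebra.linearMap E0 ℂ) = ⊥ := by
      rw [LinearMap.ker_eq_bot]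
      exact (algebraMap E0 ℂ).injective
    obtain ⟨ℓ, hℓ⟩ := LinearMap.exists_leftInverse_of_injective (Algebra.linearMap E0 ℂ) hinj
    exact ⟨ℓ, fun c => LinearMap.congr_fun hℓ c⟩
  refine ⟨∑ i ∈ Finset.range (m.natDegree + 1), monomial i (ℓ (m.coeff i)), ?_, ?_⟩
  · intro h0
    have h1 := congrArg (fun p => Polynomial.coeff p m.natDegree) h0
    simp only [finsetSum_coeff, coeff_monomial, Polynomial.coeff_zero] at h1
    rw [Finset.sum_ite_eq'] at h1
    simp only [Finset.mem_range, Nat.lt_succ_self, if_true] at h1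
    rw [hm.coeff_natDegree] at h1
    have := hℓ 1
    rw [show ((1 : E0) : ℂ) = 1 from rfl, h1] at this
    exact zero_ne_one this
  · rw [aeval_eq_sum_range] at h
    rw [map_sum]
    ext g
    have h2 := congrArg (fun x => MonoidAlgebra.coeff x g) h
    simp only [MonoidAlgebra.coeff_sum, MonoidAlgebra.coeff_smul, MonoidAlgebra.coeff_zero,
      Finsupp.coe_zero, Pi.zero_apply,
      Finsupp.coe_finsetSum, Finset.sum_apply, Finsupp.coe_smul, Pi.smul_apply, smul_eq_mul]
      at h2
    have h3 := congrArg ℓ h2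
    rw [map_sum, map_zero] at h3
    simp only [MonoidAlgebra.coeff_sum, MonoidAlgebra.coeff_zero, Finsupp.coe_zero, Pi.zero_apply,
      Finsupp.coe_finsetSum, Finset.sum_apply]
    have h5 : ∀ i, (aeval s (monomial i (ℓ (m.coeff i)))).coeff g =
        ℓ (m.coeff i * (ext E0 ℂ G s ^ i).coeff g) := by
      intro i
      rw [aeval_monomial, ← Algebra.smul_def, MonoidAlgebra.coeff_smul, Finsupp.smul_apply, ← map_pow, ext_coeff,
        smul_eq_mul, mul_comm (m.coeff i), mul_comm (ℓ _)]
      exact (ℓ.map_smul ((s ^ i).coeff g) (m.coeff i)).symm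
    simp only [h5]
    exact congrArg _ h3

theorem spectrum_infinite [Nontrivial A] (u : G →* unitary A) (hu : Function.Injective (rep u))
    {s : MonoidAlgebra E0 G} (hs : s ∈ Ideal.jacobson (⊥ : Ideal (MonoidAlgebra E0 G)))
    (hsa : IsSelfAdjoint (repE u s)) (hne : s ≠ 0) : (spectrum ℝ (repE u s)).Infinite := by
  intro hfin
  set x := repE u s with hx
  set m : ℝ[X] := ∏ c ∈ hfin.toFinset, (X - C c) with hm
  have hmm : m.Monic := monic_prod_of_monic _ _ fun c _ => monic_X_sub_C c
  have h1 : aeval x m = 0 := by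
    rw [← cfc_polynomial m x hsa]
    have : (spectrum ℝ x).EqOn m.eval (fun _ => 0) := by
      intro c hc
      simp only [hm]
      rw [eval_prod]
      apply Finset.prod_eq_zero (hfin.mem_toFinset.2 hc)
      simp
    rw [cfc_congr this, cfc_const_zero]
  have h2 : aeval (ext E0 ℂ G s) (m.map (algebraMap ℝ ℂ)) = 0 := by
    apply hu
    rw [map_zero, ← aeval_algHom_apply]
    have : rep u (ext E0 ℂ G s) = x := rfl
    rw [this, aeval_map_algebraMap]
    exact h1
  obtain ⟨q, hq, hq0⟩ := exists_aeval_zero (hmm.map _) h2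
  obtain ⟨k, hk⟩ := isNilpotent_of_aeval hs hq hq0
  have h3 : x ^ k = 0 := by rw [hx, ← map_pow, hk, map_zero]
  have h4 : x = 0 := by
    have h5 : x ^ 2 ^ k = 0 := by
      rw [← Nat.sub_add_cancel (Nat.lt_two_pow_self (n := k)).le, pow_add, h3, mul_zero]
    have h6 := hsa.nnnorm_pow_two_pow k
    rw [h5, nnnorm_zero] at h6
    have := pow_eq_zero_iff (pow_ne_zero k (two_ne_zero)) |>.1 h6.symm
    exact nnnorm_eq_zero.1 this
  apply hne
  apply ext_injective (F := E0) (E := ℂ)
  apply hu
  rw [map_zero, map_zero]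
  exact h4

lemma rat_notMem [Nontrivial A] (u : G →* unitary A)
    {s : MonoidAlgebra E0 G} (hs : s ∈ Ideal.jacobson (⊥ : Ideal (MonoidAlgebra E0 G)))
    {r : ℚ} (hr : r ≠ 0) : (r : ℝ) ∉ spectrum ℝ (repE u s) := by
  rw [spectrum.mem_iff, not_not]
  have h1 : IsUnit (1 - single 1 ((r : E0)⁻¹) * s) := isUnit_one_sub (Ideal.mul_mem_left _ _ hs)
  have hr' : (r : E0) ≠ 0 := by exact_mod_cast hr
  have h2 : IsUnit (single (1 : G) (r : E0)) := by
    refine ⟨⟨single 1 (r : E0), single 1 (r : E0)⁻¹, ?_, ?_⟩, rfl⟩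
    · rw [single_mul_single, mul_inv_cancel₀ hr', mul_one]; rfl
    · rw [single_mul_single, inv_mul_cancel₀ hr', mul_one]; rfl
  have h3 := (h2.mul h1).map (repE u)
  have h4 : repE u (single (1 : G) (r : E0) * (1 - single 1 ((r : E0)⁻¹) * s)) =
      algebraMap ℝ A r - repE u s := by
    rw [mul_sub, mul_one, ← mul_assoc, single_mul_single, mul_inv_cancel₀ hr', mul_one, map_sub,
      repE_single, map_one]
    have h5 : (single (1 : G) (1 : E0)) = 1 := rfl
    rw [h5, one_mul]
    congr 1
    rw [Algebra.algebraMap_eq_smul_one]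
    simp only [OneMemClass.coe_one]
    have h6 : (((r : E0) : ℂ)) = (((r : ℝ)) : ℂ) := by push_cast; rfl
    rw [h6]
    exact (RCLike.real_smul_eq_coe_smul (K := ℂ) (r : ℝ) (1 : A)).symm
  rw [h4] at h3
  exact h3

/-- Infinitely many orthogonal projections in every C*-completion if the radical is not zero. -/
theorem exists_projections_E [Nontrivial A] (u : G →* unitary A)
    (hu : Function.Injective (rep u))
    (hJ : Ideal.jacobson (⊥ : Ideal (MonoidAlgebra E0 G)) ≠ ⊥) :
    ∃ p : ℕ → A, (∀ n, p n ∈ closure (Set.range (rep u)) ∧ IsStarProjection (p n) ∧ p n ≠ 0) ∧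
      ∀ m n, m ≠ n → p m * p n = 0 := by
  obtain ⟨a, ha, ha0⟩ := Submodule.exists_mem_ne_zero_of_ne_bot hJ
  set s := adj a * a with hsdef
  have hs : s ∈ Ideal.jacobson (⊥ : Ideal (MonoidAlgebra E0 G)) := Ideal.mul_mem_left _ _ ha
  have hx : repE u s = star (repE u a) * repE u a := by
    rw [hsdef, map_mul, repE_adj]
  have hsa : IsSelfAdjoint (repE u s) := by
    rw [hx]; exact IsSelfAdjoint.star_mul_self _
  have hne : s ≠ 0 := by
    intro h0
    rw [h0, map_zero] at hx
    have h1 : repE u a = 0 := CStarRing.star_mul_self_eq_zero_iff _ |>.1 hx.symm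
    apply ha0
    apply ext_injective (F := E0) (E := ℂ)
    apply hu
    rw [map_zero, map_zero]
    exact h1
  obtain ⟨p, hp, hp'⟩ := exists_projections hsa (spectrum_infinite u hu hs hsa hne) (by
    intro y z hyz
    obtain ⟨q, hq1, hq2⟩ := exists_rat_btwn hyz
    rcases eq_or_ne q 0 with rfl | hq
    · obtain ⟨q', hq1', hq2'⟩ := exists_rat_btwn hq2
      have hq' : q' ≠ 0 := by
        rintro rfl
        exact lt_irrefl _ hq1'
      exact ⟨q', hq1.trans hq1', hq2', rat_notMem u hs hq'⟩
    · exact ⟨q, hq1, hq2, rat_notMem u hs hq⟩)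
  refine ⟨p, fun n => ⟨?_, (hp n).2⟩, hp'⟩
  -- the generated algebra is contained in the closure
  let S : StarSubalgebra ℝ A :=
    { carrier := Set.range (rep u)
      mul_mem' := by
        rintro _ _ ⟨v, rfl⟩ ⟨w, rfl⟩
        exact ⟨v * w, map_mul _ _ _⟩
      one_mem' := ⟨1, map_one _⟩
      add_mem' := by
        rintro _ _ ⟨v, rfl⟩ ⟨w, rfl⟩
        exact ⟨v + w, map_add _ _ _⟩
      zero_mem' := ⟨0, map_zero _⟩
      algebraMap_mem' := fun t => ⟨algebraMap ℂ _ t, by
        rw [AlgHom.commutes, IsScalarTower.algebraMap_apply ℝ ℂ A]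
        rfl⟩
      star_mem' := by
        rintro _ ⟨v, rfl⟩
        refine ⟨v.coeff.sum fun g c => single g⁻¹ (star c), ?_⟩
        have h1 : rep u v = v.coeff.sum fun g c => c • (u g : A) := by
          simp [rep, MonoidAlgebra.lift_apply]
        rw [h1, Finsupp.sum, Finsupp.sum, map_sum, star_sum]
        refine Finset.sum_congr rfl fun g _ => ?_
        simp only [rep, lift_single, star_smul, MonoidHom.comp_apply, map_inv]
        rfl }
  have h1 : StarAlgebra.elemental ℝ (repE u s) ≤ S.topologicalClosure := by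
    apply StarAlgebra.elemental.le_of_mem
    · exact StarSubalgebra.isClosed_topologicalClosure _
    · exact StarSubalgebra.le_topologicalClosure _ ⟨ext E0 ℂ G s, rfl⟩
  exact h1 (hp n).1

end

end Pool.Agent.KK
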